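import Pool.Agent.Helper50.KP.Goals

/-!
# KP-UNT (MP_5a63b6_lc): untying
-/

set_option autoImplicit false

namespace Pool.Agent.Helper13.KP

open Pool.Agent.Helper50.KP

/-- The goal `CNS`, with parentheses in (3).  If `CNS` has these parentheses, the two are equal by
definition. -/
def CNSc : Prop := ∀ (n v : ℕ) (As Bs : List ℕ), (As ++ v :: Bs).Sublist (List.range n) →
  cn (Sl n (As ++ v :: Bs)) (2 * (n - 1 - v)) = 2 * Bs.length ∧
  cn (fun y => Sl n (As ++ v :: Bs) y && decide (y ≠ 2 * (n - 1 - v))) (2 * (n - 1 - v) + 1) =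
    2 * Bs.length ∧
  (∀ y, ((Sl n (As ++ v :: Bs) y && decide (y ≠ 2 * (n - 1 - v))) &&
    decide (y ≠ 2 * (n - 1 - v) + 1)) = Sl n (As ++ Bs) y) ∧
  Sl n (As ++ v :: Bs) (2 * (n - 1 - v)) = true ∧
  Sl n (As ++ v :: Bs) (2 * (n - 1 - v) + 1) = true

theorem er_step (hERC : Pool.Agent.Helper50.KP.ERC) (hCNS : CNSc)
    (n v : ℕ) (As Bs : List ℕ) (hsub : (As ++ v :: Bs).Sublist (List.range n)) (P : Prog) :
    er1 (2 * Bs.length) 0 (er1 (2 * Bs.length) 0 (er (Sl n (As ++ v :: Bs)) 0 P))
      = er (Sl n (As ++ Bs)) 0 P := by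
  obtain ⟨c1, c2, c3, c4, c5⟩ := hCNS n v As Bs hsub
  have h0 : ∀ S : ℕ → Bool, cn S 0 = 0 := fun S => Nat.count_zero _
  have h1 := hERC.1 (Sl n (As ++ v :: Bs)) (2 * (n - 1 - v)) 0 P c4
  rw [c1, h0] at h1
  have c5' : (fun y => Sl n (As ++ v :: Bs) y && decide (y ≠ 2 * (n - 1 - v)))
      (2 * (n - 1 - v) + 1) = true := by
    change (Sl n (As ++ v :: Bs) (2 * (n - 1 - v) + 1)
      && decide (2 * (n - 1 - v) + 1 ≠ 2 * (n - 1 - v))) = true
    rw [c5, Bool.true_and]
    exact decide_eq_true (Nat.succ_ne_self _)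
  have h2 := hERC.1 (fun y => Sl n (As ++ v :: Bs) y && decide (y ≠ 2 * (n - 1 - v)))
    (2 * (n - 1 - v) + 1) 0 P c5'
  rw [c2, h0] at h2
  rw [h1, h2]
  have h3 : (fun y => (Sl n (As ++ v :: Bs) y && decide (y ≠ 2 * (n - 1 - v)))
      && decide (y ≠ 2 * (n - 1 - v) + 1)) = Sl n (As ++ Bs) := funext c3
  rw [h3]

theorem gUNT (hREM : Pool.Agent.Helper50.KP.REM) (hERC : Pool.Agent.Helper50.KP.ERC)
    (hHKE : Pool.Agent.Helper50.KP.HKE) (hPGE : Pool.Agent.Helper50.KP.PGE)
    (hCNS : CNSc) : Pool.Agent.Helper50.KP.UNT := by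
  intro n ps hok hrel
  have main : ∀ (N : ℕ) (l : List ℕ), l.length ≤ N → l.Sublist (List.range n) →
      R (dia (l.map fun v => er (Sl n l) 0 (prog n (ps v)))) circle := by
    intro N
    induction N with
    | zero =>
      intro l hl _
      have h : l = [] := List.length_eq_zero_iff.1 (Nat.le_zero.1 hl)
      subst h
      exact Relation.ReflTransGen.refl
    | succ N ih =>
      intro l hl hsub
      by_cases hne : l = []
      · subst hne
        exact Relation.ReflTransGen.refl
      · obtain ⟨v, hv, hvp⟩ := hrel l hne hsub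
        obtain ⟨As, Bs, rfl⟩ := List.append_of_mem hv
        have hmem : ∀ u ∈ As ++ v :: Bs, u < n := fun u hu => List.mem_range.1 (hsub.subset hu)
        have h0 : cn (Sl n (As ++ v :: Bs)) 0 = 0 := Nat.count_zero _
        have hfn : ∀ u ∈ As ++ v :: Bs,
            ∃ N, fn N 0 (er (Sl n (As ++ v :: Bs)) 0 (prog n (ps u))) = some 0 := by
          intro u hu
          have h1 := hPGE.1 n (ps u) (hok u (hmem u hu))
          have h2 := hERC.2 (Sl n (As ++ v :: Bs)) (2 * n) 0 0 _ h1
          rw [h0] at h2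
          exact ⟨_, h2⟩
        have hPR : PR (er (Sl n (As ++ v :: Bs)) 0 (prog n (ps v))) [] :=
          hPGE.2 n (ps v) _ (hok v (hmem v hv)) hvp
        have hr := hREM (As.map fun u => er (Sl n (As ++ v :: Bs)) 0 (prog n (ps u)))
          (er (Sl n (As ++ v :: Bs)) 0 (prog n (ps v)))
          (Bs.map fun u => er (Sl n (As ++ v :: Bs)) 0 (prog n (ps u)))
          (by
            intro E' hE'
            rw [← List.map_cons (f := fun u => er (Sl n (As ++ v :: Bs)) 0 (prog n (ps u))),
              ← List.map_append] at hE'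
            obtain ⟨u, hu, rfl⟩ := List.mem_map.1 hE'
            exact hfn u hu) hPR
        rw [← List.map_cons (f := fun u => er (Sl n (As ++ v :: Bs)) 0 (prog n (ps u))),
          ← List.map_append, ← List.map_append, List.map_map, List.length_map] at hr
        have hfun : ((fun P => er1 (2 * Bs.length) 0 (er1 (2 * Bs.length) 0 P)) ∘
            fun u => er (Sl n (As ++ v :: Bs)) 0 (prog n (ps u)))
            = fun u => er (Sl n (As ++ Bs)) 0 (prog n (ps u)) := by
          funext u
          exact er_step hERC hCNS n v As Bs hsub _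
        rw [hfun] at hr
        have hsub' : (As ++ Bs).Sublist (List.range n) :=
          ((List.sublist_cons_self v Bs).append_left As).trans hsub
        have hlen : (As ++ Bs).length ≤ N := by
          rw [List.length_append] at hl ⊢
          rw [List.length_cons] at hl
          omega
        exact hr.trans (ih (As ++ Bs) hlen hsub')
  have h1 := main n (List.range n) (by rw [List.length_range]) (List.Sublist.refl _)
  have h2 : ((List.range n).map fun v => er (Sl n (List.range n)) 0 (prog n (ps v)))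
      = (List.range n).map fun v => prog n (ps v) := by
    refine List.map_congr_left fun v hv => ?_
    have hv' : v < n := List.mem_range.1 hv
    refine hHKE.2.1 (Sl n (List.range n)) (2 * n) 0 0 _ (fun z hz => ?_) (Nat.zero_le _)
      (hPGE.1 n (ps v) (hok v hv'))
    unfold Sl
    exact decide_eq_true ⟨hz, List.mem_range.2 (by omega)⟩
  rw [h2] at h1
  exact h1

end Pool.Agent.Helper13.KP
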